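import Pool.Agent.KS6_55.FJP.Rep
import Pool.Graph.R_pool_sql_team_seeded_3997aac3.Q9.FJT.TreeA

/-!
Groups acting on trees with vertex stabilizers in `C` and edge stabilizers embedded in soluble
quotients of the kernels.
-/

set_option autoImplicit false

namespace Pool.Agent.KS6_55.FJP

open SimpleGraph
open Pool.Agent.Y110.FJ
open Pool.Agent.KS6_55.FJ (AbCyc)
open Pool.Agent.KS6_55.FJS (Fm chain_ab no_multi Chn)
open Pool.Agent.KS6_55.FJT (QV qm qm_eq QT QT_isTree QT_adj QT_inv smul_qm exists_parity)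

variable {C : ∀ (G : Type) [Group G], Prop}

/-- compatible series which meet the edge stabilizers trivially at the end -/
structure Che {G Q V : Type} [Group G] [Group Q] [MulAction G V] (T : SimpleGraph V) (π : G →* Q)
    (n : ℕ) (s : ℕ → V → Subgroup G) : Prop where
  le : ∀ i v, s i v ≤ MulAction.stabilizer G v
  conj : ∀ i (g : G) v x, x ∈ s i v → g * x * g⁻¹ ∈ s i (g • v)
  dec : ∀ i v, s (i + 1) v ≤ s i v
  comm : ∀ i, i < n → ∀ v, ∀ x ∈ s i v, ∀ y ∈ s i v, x * y * x⁻¹ * y⁻¹ ∈ s (i + 1) v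
  edge : ∀ i v w, T.Adj v w → ∀ x ∈ s i v, x • w = w → x ∈ s i w
  triv : ∀ v w, T.Adj v w → ∀ x ∈ s n v, x • w = w → x = 1
  ker : ∀ v (x : G), x • v = v → (π x = 1 ↔ x ∈ s 0 v)

/-- **actions without inversions** -/
theorem edge_ab (hC : ClosedE C) (hm : AbCyc C) (n : ℕ)
    {G Q V : Type} [Group G] [Group Q] [MulAction G V] {T : SimpleGraph V} (π : G →* Q)
    (s : ℕ → V → Subgroup G) (hT : T.IsTree)
    (hadj : ∀ (g : G) (v w : V), T.Adj v w → T.Adj (g • v) (g • w))
    (hinv : ∀ (g : G) (v w : V), T.Adj v w → ¬ (g • v = w ∧ g • w = v))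
    (hst : ∀ v : V, C (MulAction.stabilizer G v)) (hQ : C Q) (hs : Che T π n s) : C G := by
  have hFm : Fm (s n) := ⟨hs.le n, hs.conj n⟩
  let S : Set G := {x | ∃ v, x ∈ s n v}
  have hS : ∀ x ∈ S, ∃ v : V, x • v = v := fun x ⟨v, hx⟩ => ⟨v, hs.le n v hx⟩
  let R : Subgroup G := Subgroup.normalClosure S
  have hdec : ∀ i j v, i ≤ j → s j v ≤ s i v := fun i j v h =>
    antitone_nat_of_succ_le (f := fun i => s i v) (fun k => hs.dec k v) h
  have hRπ : R ≤ π.ker := Subgroup.normalClosure_le_normal (by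
    rintro x ⟨v, hx⟩
    exact (hs.ker v x (hs.le n v hx)).2 (hdec 0 n v (Nat.zero_le n) hx))
  -- the stabilizers in `R`
  have hRs : ∀ (v : V) (x : G), x ∈ R → x • v = v → x ∈ s n v := by
    intro v₀ x hx hxv
    obtain ⟨X, F, D, hF2, hF3, hF5⟩ := exists_F hT hadj hinv hFm (hs.edge n) v₀
    let B : Subgroup G :=
      { carrier := {r | ∀ y ∈ D, F r y = y}
        mul_mem' := by
          intro a b ha hb y hy
          rw [map_mul, Equiv.Perm.mul_apply, hb y hy, ha y hy]
        one_mem' := fun y _ => by rw [map_one]; rfl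
        inv_mem' := by
          intro a ha y hy
          rw [map_inv, Equiv.Perm.inv_eq_iff_eq, ha y hy] }
    have hB : B.Normal := ⟨fun a ha g y hy => by
      have h1 := ha (F g⁻¹ y) (hF2 _ _ hy)
      rw [map_mul, map_mul, Equiv.Perm.mul_apply, Equiv.Perm.mul_apply, h1,
        ← Equiv.Perm.mul_apply, ← map_mul, mul_inv_cancel, map_one]
      rfl⟩
    have hRB : R ≤ B := Subgroup.normalClosure_le_normal (by
      rintro x ⟨v, hv⟩
      exact hF3 v x hv)
    exact hF5 x hxv (hRB hx)
  -- the quotient by `R`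
  have hCR : C (G ⧸ R) := by
    have hker : R ≤ (MulAction.toPermHom G (QV S V)).ker := by
      intro r hr
      show MulAction.toPermHom G (QV S V) r = 1
      ext a
      induction a using Quotient.inductionOn with
      | h v => exact (qm_eq S).2 ⟨r, hr, rfl⟩
    letI : MulAction (G ⧸ R) (QV S V) := MulAction.compHom (QV S V)
      (QuotientGroup.lift R (MulAction.toPermHom G (QV S V)) hker)
    have hsm : ∀ (g : G) (a : QV S V), ((g : G ⧸ R)) • a = g • a := fun g a => rfl
    let s' : ℕ → QV S V → Subgroup (G ⧸ R) := fun i a => (s i a.out).map (QuotientGroup.mk' R)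
    have hs' : ∀ i (v : V) (x : G ⧸ R), x ∈ s' i (qm S v) ↔ ∃ y ∈ s i v, (y : G ⧸ R) = x := by
      intro i v x
      obtain ⟨r, hr, hrv⟩ := (qm_eq S (v := (qm S v).out) (w := v)).1 (Quotient.out_eq _)
      have hr1 : ((r : G) : G ⧸ R) = 1 := (QuotientGroup.eq_one_iff r).2 hr
      constructor
      · rintro ⟨y, hy, rfl⟩
        refine ⟨r⁻¹ * y * r⁻¹⁻¹, ?_, ?_⟩
        · have h1 := hs.conj i r⁻¹ _ y hy
          rwa [← hrv, inv_smul_smul] at h1
        · rw [inv_inv, QuotientGroup.mk_mul, QuotientGroup.mk_mul, QuotientGroup.mk_inv, hr1,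
            inv_one, one_mul, mul_one]
          rfl
      · rintro ⟨y, hy, rfl⟩
        refine ⟨r * y * r⁻¹, ?_, ?_⟩
        · have h1 := hs.conj i r v y hy
          rw [hrv] at h1
          exact h1
        · show ((r * y * r⁻¹ : G) : G ⧸ R) = _
          rw [QuotientGroup.mk_mul, QuotientGroup.mk_mul, QuotientGroup.mk_inv, hr1, inv_one,
            one_mul, mul_one]
    refine chain_ab hC hm n (QuotientGroup.lift R π hRπ) s' (QT_isTree S hT hadj hS) ?_ ?_ hQ
      ⟨?_, ?_, ?_, ?_, ?_, ?_, ?_⟩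
    · intro x a b h
      obtain ⟨g, rfl⟩ := QuotientGroup.mk_surjective x
      rw [hsm, hsm]
      exact QT_adj S hadj g a b h
    · intro x a b h
      obtain ⟨g, rfl⟩ := QuotientGroup.mk_surjective x
      rw [hsm, hsm]
      exact QT_inv S hT hadj hinv hS g a b h
    · intro i a x hx
      induction a using Quotient.inductionOn with
      | h v =>
        obtain ⟨y, hy, rfl⟩ := (hs' i v x).1 hx
        show qm S (y • v) = qm S v
        rw [show y • v = v from hs.le i v hy]
    · intro i g a x hx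
      induction a using Quotient.inductionOn with
      | h v =>
        obtain ⟨g, rfl⟩ := QuotientGroup.mk_surjective g
        obtain ⟨y, hy, rfl⟩ := (hs' i v x).1 hx
        exact (hs' i (g • v) _).2 ⟨g * y * g⁻¹, hs.conj i g v y hy, rfl⟩
    · intro i a x hx
      induction a using Quotient.inductionOn with
      | h v =>
        obtain ⟨y, hy, rfl⟩ := (hs' _ v x).1 hx
        exact (hs' i v _).2 ⟨y, hs.dec i v hy, rfl⟩
    · intro i hi a x hx y hy
      induction a using Quotient.inductionOn with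
      | h v =>
        obtain ⟨x₁, hx₁, rfl⟩ := (hs' _ v x).1 hx
        obtain ⟨y₁, hy₁, rfl⟩ := (hs' _ v y).1 hy
        exact (hs' _ v _).2 ⟨_, hs.comm i hi v x₁ hx₁ y₁ hy₁, rfl⟩
    · rintro i a b ⟨hne, v, w, hvw, rfl, rfl⟩ x₀ hx₀ hxb
      obtain ⟨x, hx, rfl⟩ := (hs' _ v x₀).1 hx₀
      by_cases hi : i ≤ n
      · have hxv : x • v = v := hs.le i v hx
        have h1 : qm S (x • w) = qm S w := hxb
        obtain ⟨r, hr, h2⟩ := (qm_eq S).1 h1
        have h3 : T.Adj v (r • w) := by
          have := hadj x v w hvw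
          rwa [hxv, ← h2] at this
        obtain ⟨q, hq, hqv, hqw⟩ := no_multi S hT hadj hS v w hvw hne r hr h3
        have hq1 : ((q : G) : G ⧸ R) = 1 := (QuotientGroup.eq_one_iff q).2 hq
        have hqs : q ∈ s i v := hdec i n v hi (hRs v q hq hqv)
        refine (hs' _ w _).2 ⟨q⁻¹ * x, hs.edge i v w hvw _
          ((s i v).mul_mem ((s i v).inv_mem hqs) hx) ?_, ?_⟩
        · rw [mul_smul, ← h2, ← hqw, inv_smul_smul]
        · rw [QuotientGroup.mk_mul, QuotientGroup.mk_inv, hq1, inv_one, one_mul]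
      · have h1 : x ∈ s n v := hdec n i v (by omega) hx
        have h2 : ((x : G) : G ⧸ R) = 1 :=
          (QuotientGroup.eq_one_iff x).2 (Subgroup.subset_normalClosure ⟨v, h1⟩)
        rw [h2]
        exact Subgroup.one_mem _
    · intro a
      rw [eq_bot_iff]
      rintro _ ⟨y, hy, rfl⟩
      rw [Subgroup.mem_bot]
      exact (QuotientGroup.eq_one_iff y).2 (Subgroup.subset_normalClosure ⟨_, hy⟩)
    · intro a x hxa
      induction a using Quotient.inductionOn with
      | h v =>
        obtain ⟨g, rfl⟩ := QuotientGroup.mk_surjective x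
        have h1 : qm S (g • v) = qm S v := hxa
        obtain ⟨r, hr, h2⟩ := (qm_eq S).1 h1
        have hr1 : ((r : G) : G ⧸ R) = 1 := (QuotientGroup.eq_one_iff r).2 hr
        have h3 : (r⁻¹ * g) • v = v := by rw [mul_smul, ← h2, inv_smul_smul]
        have h4 : (((r⁻¹ * g : G)) : G ⧸ R) = (g : G ⧸ R) := by
          rw [QuotientGroup.mk_mul, QuotientGroup.mk_inv, hr1, inv_one, one_mul]
        have h5 : QuotientGroup.lift R π hRπ (g : G ⧸ R) = π (r⁻¹ * g) := by
          rw [← h4]
          rfl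
        have h6 := hs' 0 v (g : G ⧸ R)
        constructor
        · intro h7
          rw [h5] at h7
          exact h6.2 ⟨_, (hs.ker v _ h3).1 h7, h4⟩
        · intro h7
          obtain ⟨y, hy, h8⟩ := h6.1 h7
          rw [← h8]
          exact (hs.ker v y (hs.le 0 v hy)).2 hy
  refine Q9.FJT.tree_edge (QuotientGroup.mk' R) hC hCR hT hadj hinv ?_ hst
  intro g v w h hv hw h1
  exact hs.triv v w h g (hRs v g ((QuotientGroup.eq_one_iff g).1 h1) hv) hw

/-- **possibly with inversions** -/
theorem edge_all (hC : ClosedE C) (hm : AbCyc C) (n : ℕ)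
    {G Q V : Type} [Group G] [Group Q] [MulAction G V] {T : SimpleGraph V} (π : G →* Q)
    (s : ℕ → V → Subgroup G) (hT : T.IsTree)
    (hadj : ∀ (g : G) (v w : V), T.Adj v w → T.Adj (g • v) (g • w))
    (hst : ∀ v : V, C (MulAction.stabilizer G v)) (hQ : C Q) (hs : Che T π n s) : C G := by
  obtain ⟨χ, hχ⟩ := exists_parity hT hadj
  have h1 : C χ.ker := by
    refine edge_ab hC hm n (π.comp χ.ker.subtype) (fun i v => (s i v).subgroupOf χ.ker) hT
      (fun g v w h => hadj g v w h) ?_ ?_ hQ ⟨?_, ?_, ?_, ?_, ?_, ?_, ?_⟩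
    · rintro g v w h ⟨h1, h2⟩
      exact hχ g v w h h1 h2 g.2
    · intro v
      let f : MulAction.stabilizer χ.ker v →* MulAction.stabilizer G v :=
        { toFun := fun x => ⟨((x : χ.ker) : G), x.2⟩
          map_one' := rfl
          map_mul' := fun _ _ => rfl }
      refine hC.base.of_injective _ _ f ?_ (hst v)
      intro a b h
      have h1 : (f a).1 = (f b).1 := congrArg Subtype.val h
      exact Subtype.ext (Subtype.ext h1)
    · intro i v x hx
      exact hs.le i v hx
    · intro i g v x hx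
      exact hs.conj i g v x hx
    · intro i v x hx
      exact hs.dec i v hx
    · intro i hi v x hx y hy
      exact hs.comm i hi v x hx y hy
    · intro i v w h x hx hxw
      exact hs.edge i v w h x hx hxw
    · intro v w h x hx hxw
      exact Subtype.ext (hs.triv v w h x hx hxw)
    · intro v x hx
      exact hs.ker v x hx
  exact hC.base.finiteIndex G χ.ker inferInstance h1

end Pool.Agent.KS6_55.FJP
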