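import Pool.Agent.KS6_55.FJS.Chain

/-!
The version without characters, for arbitrary families of normal subgroups of the stabilizers.
-/

set_option autoImplicit false

namespace Pool.Agent.KS6_55.FJP

open Pool.Agent.KS6_55.FJ SimpleGraph
open Pool.Agent.KS6_55.FJS (Fm Mo)
open Pool.Agent.KS6_55.FJT (Ob rp co co_mem exists_family exists_pot pot_equiv)

section main

variable {G V : Type} [Group G] [MulAction G V] {N : V → Subgroup G} {I : Type}

/-- the set -/
abbrev Xs (N : V → Subgroup G) (I : Type) : Type := (o : Ob G V) × (G ⧸ Mo N o) × I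

/-- the action -/
noncomputable def ac (g : G) (y : Xs N I) : Xs N I := ⟨y.1, g • y.2.1, y.2.2⟩

theorem ac_one (y : Xs N I) : ac 1 y = y := by
  unfold ac
  rw [one_smul]

theorem ac_mul (g h : G) (y : Xs N I) : ac (g * h) y = ac g (ac h y) := by
  unfold ac
  rw [mul_smul]

variable (N I)

/-- the action as a homomorphism -/
noncomputable def ta : G →* Equiv.Perm (Xs N I) := permHom ac ac_one ac_mul

variable {N I}

/-- the projection to the vertices -/
noncomputable def pr (y : Xs N I) : V := y.2.1.out • rp y.1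

theorem pr_ac (hN : Fm N) (g : G) (y : Xs N I) : pr (ac g y) = g • pr y := by
  unfold pr ac
  simp only
  have h1 : co g y.2.1 ∈ Mo N y.1 := co_mem g y.2.1
  have h2 : co g y.2.1 • rp y.1 = rp y.1 := hN.le _ h1
  unfold co at h2
  rw [mul_assoc, mul_smul, inv_smul_eq_iff, mul_smul] at h2
  exact h2.symm

theorem base_iff (hN : Fm N) (g : G) (y : Xs N I) : g • y.2.1 = y.2.1 ↔ g ∈ N (pr y) := by
  have e1 : g • y.2.1 = y.2.1 ↔ y.2.1.out⁻¹ * g * y.2.1.out ∈ Mo N y.1 := by
    conv_lhs => rw [← QuotientGroup.out_eq' y.2.1]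
    rw [show g • ((y.2.1.out : G) : G ⧸ Mo N y.1) =
      ((g * y.2.1.out : G) : G ⧸ Mo N y.1) from rfl, eq_comm, QuotientGroup.eq, mul_assoc]
  rw [e1]
  constructor
  · intro h
    have := hN.conj y.2.1.out (rp y.1) _ h
    have e : y.2.1.out * (y.2.1.out⁻¹ * g * y.2.1.out) * y.2.1.out⁻¹ = g := by group
    rwa [e] at this
  · intro h
    have := hN.conj y.2.1.out⁻¹ _ _ h
    unfold pr at this
    rw [inv_inv, inv_smul_smul] at this
    exact this

theorem ac_iff (hN : Fm N) (g : G) (y : Xs N I) : ac g y = y ↔ g ∈ N (pr y) := by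
  rw [← base_iff hN]
  constructor
  · intro h
    exact congrArg Prod.fst (eq_of_heq (Sigma.ext_iff.1 h).2)
  · intro h
    unfold ac
    rw [h]

/-- the fibre -/
abbrev Fb (N : V → Subgroup G) (I : Type) (v : V) : Type := {y : Xs N I // pr y = v}

/-- the action of `K` on the fibre -/
noncomputable def rK (hN : Fm N) (v : V) (K : Subgroup G) (hK : K ≤ MulAction.stabilizer G v) :
    K →* Equiv.Perm (Fb N I v) :=
  permHom (fun l y => ⟨ac (l : G) y.1, by
      rw [pr_ac hN, y.2]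
      exact hK l.2⟩)
    (fun y => by
      apply Subtype.ext
      simp only [Subgroup.coe_one, ac_one])
    (fun l m y => by
      apply Subtype.ext
      simp only [Subgroup.coe_mul, ac_mul])

/-- points -/
theorem pointV (hN : Fm N) (v : V) (i : I) : ∃ y : Fb N I v, y.1.2.2 = i := by
  let o : Ob G V := Quotient.mk _ v
  have ho : ∃ g : G, g • rp o = v := by
    have h1 : MulAction.orbitRel G V (rp o) v := Quotient.exact (Quotient.out_eq o)
    obtain ⟨g, hg⟩ := (MulAction.orbitRel G V).symm h1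
    exact ⟨g, hg⟩
  obtain ⟨g, hg⟩ := ho
  let x : G ⧸ Mo N o := (g : G ⧸ Mo N o)
  have hx : x.out • rp o = v := by
    have h1 : g⁻¹ * x.out ∈ Mo N o := by
      rw [← QuotientGroup.eq]
      exact (QuotientGroup.out_eq' x).symm
    have h2 : (g⁻¹ * x.out) • rp o = rp o := hN.le _ h1
    rw [mul_smul, inv_smul_eq_iff, hg] at h2
    exact h2
  exact ⟨⟨(⟨o, x, i⟩ : Xs N I), hx⟩, rfl⟩

/-- **matching of the fibres** -/
theorem matchV (hN : Fm N) (e : Xs N I → I) (he : Function.Injective e) (v w : V)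
    (K : Subgroup G) (hv : K ≤ MulAction.stabilizer G v) (hw : K ≤ MulAction.stabilizer G w)
    (hvw : ∀ k ∈ K, k ∈ N v ↔ k ∈ N w) :
    ∃ ψ : Fb N I v ≃ Fb N I w, ∀ l y, ψ (rK hN v K hv l y) = rK hN w K hw l (ψ y) := by
  choose f hf using fun y : Fb N I v => pointV (I := I) hN w (e y.1)
  choose g hg using fun y : Fb N I w => pointV (I := I) hN v (e y.1)
  have fv : ∀ (l : K) (y : Fb N I v), rK hN v K hv l y = y ↔ (l : G) ∈ N v := by
    intro l y
    rw [Subtype.ext_iff]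
    have := ac_iff hN (l : G) y.1
    rw [y.2] at this
    exact this
  have fw : ∀ (l : K) (y : Fb N I w), rK hN w K hw l y = y ↔ (l : G) ∈ N w := by
    intro l y
    rw [Subtype.ext_iff]
    have := ac_iff hN (l : G) y.1
    rw [y.2] at this
    exact this
  refine exists_equiv (rK hN v K hv) (rK hN w K hw) f g ?_ ?_ ?_ ?_
  · rintro y z ⟨l, hl⟩
    have h0 := congrArg (fun u : Fb N I w => u.1.2.2) hl
    have h1 : (f y).1.2.2 = (f z).1.2.2 := h0
    rw [hf, hf] at h1
    exact ⟨1, by rw [map_one]; exact Subtype.ext (he h1)⟩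
  · intro y k
    rw [fv, fw]
    exact hvw k k.2
  · rintro y z ⟨l, hl⟩
    have h0 := congrArg (fun u : Fb N I v => u.1.2.2) hl
    have h1 : (g y).1.2.2 = (g z).1.2.2 := h0
    rw [hg, hg] at h1
    exact ⟨1, by rw [map_one]; exact Subtype.ext (he h1)⟩
  · intro y k
    rw [fv, fw]
    exact hvw k k.2

/-- the exchange of two fibres -/
theorem exists_swap (hN : Fm N) (e : Xs N I → I) (he : Function.Injective e) (v w : V)
    (hvw : v ≠ w) (hedge : ∀ x : G, x • v = v → x • w = w → (x ∈ N v ↔ x ∈ N w)) :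
    ∃ σ : Equiv.Perm (Xs N I), σ * σ = 1 ∧
      (∀ k : G, k • v = v → k • w = w → ta N I k * σ = σ * ta N I k) ∧
      (∀ y, pr y = v → pr (σ y) = w) ∧ ∀ y, pr y = w → pr (σ y) = v := by
  classical
  let K : Subgroup G := MulAction.stabilizer G v ⊓ MulAction.stabilizer G w
  obtain ⟨ψ, hψ⟩ := matchV hN e he v w K inf_le_left inf_le_right
    (fun k hk => hedge k hk.1 hk.2)
  let s : Xs N I → Xs N I := fun y =>
    if h : pr y = v then (ψ ⟨y, h⟩).1 else if h : pr y = w then (ψ.symm ⟨y, h⟩).1 else y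
  have s1 : ∀ y (h : pr y = v), s y = (ψ ⟨y, h⟩).1 := fun y h => dif_pos h
  have s2 : ∀ y (h : pr y = w), s y = (ψ.symm ⟨y, h⟩).1 := fun y h => by
    have h' : ¬ pr y = v := fun h'' => hvw (h''.symm.trans h)
    show dite _ _ _ = _
    rw [dif_neg h', dif_pos h]
  have s3 : ∀ y, pr y ≠ v → pr y ≠ w → s y = y := fun y h h' => by
    show dite _ _ _ = _
    rw [dif_neg h, dif_neg h']
  have ss : ∀ y, s (s y) = y := by
    intro y
    by_cases h : pr y = v
    · rw [s1 y h, s2 _ (ψ ⟨y, h⟩).2]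
      show (ψ.symm (ψ ⟨y, h⟩)).1 = y
      rw [Equiv.symm_apply_apply]
    · by_cases h' : pr y = w
      · rw [s2 y h', s1 _ (ψ.symm ⟨y, h'⟩).2]
        show (ψ (ψ.symm ⟨y, h'⟩)).1 = y
        rw [Equiv.apply_symm_apply]
      · rw [s3 y h h', s3 y h h']
  have hψs : ∀ l y, ψ.symm (rK hN w K inf_le_right l y) = rK hN v K inf_le_left l (ψ.symm y) := by
    intro l y
    rw [Equiv.symm_apply_eq, hψ, Equiv.apply_symm_apply]
  refine ⟨⟨s, s, ss, ss⟩, ?_, ?_, ?_, ?_⟩
  · ext1 y
    exact ss y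
  · intro k hkv hkw
    ext1 y
    show ac k (s y) = s (ac k y)
    by_cases h : pr y = v
    · have h1 : pr (ac k y) = v := by rw [pr_ac hN, h, hkv]
      rw [s1 y h, s1 _ h1]
      exact (congrArg Subtype.val (hψ ⟨k, hkv, hkw⟩ ⟨y, h⟩)).symm
    · by_cases h' : pr y = w
      · have h1 : pr (ac k y) = w := by rw [pr_ac hN, h', hkw]
        rw [s2 y h', s2 _ h1]
        exact (congrArg Subtype.val (hψs ⟨k, hkv, hkw⟩ ⟨y, h'⟩)).symm
      · rw [s3 y h h', s3]
        · rw [pr_ac hN]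
          intro h1
          apply h
          rw [← hkv] at h1
          exact (MulAction.injective k h1)
        · rw [pr_ac hN]
          intro h1
          apply h'
          rw [← hkw] at h1
          exact (MulAction.injective k h1)
  · intro y h
    show pr (s y) = w
    rw [s1 y h]
    exact (ψ ⟨y, h⟩).2
  · intro y h
    show pr (s y) = v
    rw [s2 y h]
    exact (ψ.symm ⟨y, h⟩).2

variable {T : SimpleGraph V}

/-- the representation -/
theorem exists_F (hT : T.IsTree)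
    (hadj : ∀ (g : G) (v w : V), T.Adj v w → T.Adj (g • v) (g • w))
    (hinv : ∀ (g : G) (v w : V), T.Adj v w → ¬ (g • v = w ∧ g • w = v))
    (hN : Fm N) (hedge : ∀ v w, T.Adj v w → ∀ x ∈ N v, x • w = w → x ∈ N w) (v₀ : V) :
    ∃ (X : Type) (F : G →* Equiv.Perm X) (D : Set X),
      (∀ (g : G), ∀ y ∈ D, F g y ∈ D) ∧ (∀ v : V, ∀ r ∈ N v, ∀ y ∈ D, F r y = y) ∧
      ∀ g : G, g • v₀ = v₀ → (∀ y ∈ D, F g y = y) → g ∈ N v₀ := by
  classical
  let Z : Type := (o : Ob G V) × (G ⧸ Mo N o)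
  let I : Type := ℕ → Z
  let o₀ : Ob G V := Quotient.mk _ v₀
  let i₀ : I := fun _ => ⟨o₀, ((1 : G) : G ⧸ Mo N o₀)⟩
  let e : Xs N I → I := fun y n => Nat.casesOn n ⟨y.1, y.2.1⟩ y.2.2
  have he : Function.Injective e := by
    rintro ⟨o, x, i⟩ ⟨o', x', i'⟩ h
    have h1 : ((⟨o, x⟩) : Z) = ⟨o', x'⟩ := congrFun h 0
    have hi : i = i' := funext fun n => congrFun h (n + 1)
    simp only [Sigma.mk.injEq] at h1
    obtain ⟨rfl, h1⟩ := h1
    have h3 := eq_of_heq h1
    rw [hi, h3]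
  let X : Type := Xs N I
  let τ : G →* Equiv.Perm X := ta N I
  let Pd : V → V → Equiv.Perm X → Prop := fun v w σ => σ * σ = 1 ∧
      (∀ k : G, k • v = v → k • w = w → τ k * σ = σ * τ k) ∧
      (∀ y, pr y = v → pr (σ y) = w) ∧ ∀ y, pr y = w → pr (σ y) = v
  obtain ⟨t, ht1, ht2, ht3⟩ := exists_family (T := T) τ Pd hinv hadj
    (fun v w h => exists_swap hN e he v w h.ne fun x h1 h2 =>
      ⟨fun h3 => hedge v w h x h3 h2, fun h3 => hedge w v h.symm x h3 h1⟩)
    (fun v w σ ⟨h1, h2, h4, h5⟩ => ⟨h1, fun k a b => h2 k b a, h5, h4⟩)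
    (by
      rintro v w σ ⟨h1, h2, h4, h5⟩ g
      refine ⟨?_, ?_, ?_, ?_⟩
      · have e1 : τ g * σ * (τ g)⁻¹ * (τ g * σ * (τ g)⁻¹) = τ g * (σ * σ) * (τ g)⁻¹ := by group
        rw [e1, h1]
        group
      · intro k hk1 hk2
        have h6 := h2 (g⁻¹ * k * g) (by rw [mul_smul, mul_smul, hk1, inv_smul_smul])
          (by rw [mul_smul, mul_smul, hk2, inv_smul_smul])
        rw [map_mul, map_mul, map_inv] at h6
        have e1 : τ k * (τ g * σ * (τ g)⁻¹) =
          τ g * (((τ g)⁻¹ * τ k * τ g) * σ) * (τ g)⁻¹ := by group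
        rw [e1, h6]
        group
      · intro y hy
        show pr (ac g (σ ((τ g)⁻¹ y))) = g • w
        rw [pr_ac hN, h4]
        rw [← map_inv]
        show pr (ac g⁻¹ y) = v
        rw [pr_ac hN, hy, inv_smul_smul]
      · intro y hy
        show pr (ac g (σ ((τ g)⁻¹ y))) = g • v
        rw [pr_ac hN, h5]
        rw [← map_inv]
        show pr (ac g⁻¹ y) = w
        rw [pr_ac hN, hy, inv_smul_smul])
    (fun v w σ h => h.2.1)
  obtain ⟨U, hU⟩ := exists_pot hT v₀ t (fun v w h => by rw [ht2 v w h, (ht1 v w h).1])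
  have hP : ∀ (g : G) (v w : V), (U (g • v))⁻¹ * U (g • w) =
      τ g * ((U v)⁻¹ * U w) * (τ g)⁻¹ := by
    intro g v w
    have := pot_equiv hT t U hU (fun x => g • x) (fun x y h => hadj g x y h)
      (MulAut.conj (τ g)).toMonoidHom (fun x y h => ht3 g x y h) v w
    exact this
  have hPprop : ∀ v w : V, ∀ y, pr y = w → pr (((U v)⁻¹ * U w) y) = v := by
    intro v w
    obtain ⟨p⟩ := hT.connected.preconnected v w
    induction p with
    | nil =>
      rw [inv_mul_cancel]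
      exact fun y hy => hy
    | cons h p ih =>
      rename_i x y z
      have e1 : (U x)⁻¹ * U z = t x y * ((U y)⁻¹ * U z) := by
        rw [hU x y h]
        group
      rw [e1]
      intro u hu
      rw [Equiv.Perm.mul_apply]
      exact (ht1 x y h).2.2.2 _ (ih u hu)
  let F : G →* Equiv.Perm X := MonoidHom.mk' (fun g => (U v₀)⁻¹ * U (g • v₀) * τ g) (by
    intro g h
    have h1 := hP g v₀ (h • v₀)
    rw [← mul_smul] at h1
    have e1 : (U v₀)⁻¹ * U ((g * h) • v₀) =
        ((U v₀)⁻¹ * U (g • v₀)) * ((U (g • v₀))⁻¹ * U ((g * h) • v₀)) := by group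
    show (U v₀)⁻¹ * U ((g * h) • v₀) * τ (g * h) =
      (U v₀)⁻¹ * U (g • v₀) * τ g * ((U v₀)⁻¹ * U (h • v₀) * τ h)
    rw [e1, h1, map_mul]
    group)
  have hF : ∀ g, F g = (U v₀)⁻¹ * U (g • v₀) * τ g := fun g => rfl
  refine ⟨X, F, {y | pr y = v₀}, ?_, ?_, ?_⟩
  · intro g y hy
    rw [hF, Equiv.Perm.mul_apply]
    apply hPprop
    show pr (ac g y) = _
    rw [pr_ac hN, show pr y = v₀ from hy]
  · intro v r hr y hy
    have hv : r • v = v := hN.le v hr
    have h1 := hP r v v₀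
    rw [hv] at h1
    have e1 : F r = (U v₀)⁻¹ * U v * τ r * ((U v)⁻¹ * U v₀) := by
      have e2 : (U v₀)⁻¹ * U (r • v₀) = ((U v₀)⁻¹ * U v) * ((U v)⁻¹ * U (r • v₀)) := by group
      rw [hF, e2, h1]
      group
    let z := ((U v)⁻¹ * U v₀) y
    have hz : pr z = v := hPprop v v₀ y hy
    have hδ : ac r z = z := (ac_iff hN r z).2 (by rw [hz]; exact hr)
    have e3 : F r y = ((U v₀)⁻¹ * U v) (ac r z) := by rw [e1]; rfl
    rw [e3, hδ]
    show (((U v₀)⁻¹ * U v) * ((U v)⁻¹ * U v₀)) y = y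
    have e4 : ((U v₀)⁻¹ * U v) * ((U v)⁻¹ * U v₀) = 1 := by group
    rw [e4]
    rfl
  · intro g hg h
    obtain ⟨y, _⟩ := pointV (I := I) hN v₀ i₀
    have h2 := h y.1 y.2
    rw [hF, hg, inv_mul_cancel, one_mul] at h2
    have h4 := (ac_iff hN g y.1).1 h2
    rwa [y.2] at h4

end main

end Pool.Agent.KS6_55.FJP
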